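import Pool.Agent.T6.H37.PA.Defs

/-!
# Module (H): from `Uniform` to the frozen statement S11851
-/

set_option autoImplicit false

namespace Pool.Agent.T6.H35.PAH

open Pool.Agent.T6.H37.PA MvPolynomial

variable {F : Type} [Field F]

/-- A monomial of degree one in a block of variables is a variable. -/
theorem exists_single {n : ℕ} (m : Fin n → ℕ) (hm : ∑ j, m j = 1) :
    ∃ j₀, ∀ v : Fin n → F, ∏ j, v j ^ m j = v j₀ := by
  classical
  obtain ⟨j₀, -, hj₀⟩ := Finset.exists_ne_zero_of_sum_ne_zero (s := Finset.univ) (f := m)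
    (by rw [hm]; exact one_ne_zero)
  refine ⟨j₀, fun v => ?_⟩
  have h1 : m j₀ + ∑ j ∈ Finset.univ.erase j₀, m j = 1 := by
    rw [Finset.add_sum_erase _ _ (Finset.mem_univ _)]; exact hm
  have h2 : m j₀ = 1 := by omega
  have h3 : ∑ j ∈ Finset.univ.erase j₀, m j = 0 := by omega
  rw [Finset.sum_eq_zero_iff] at h3
  rw [← Finset.mul_prod_erase Finset.univ _ (Finset.mem_univ j₀), h2, pow_one]
  rw [Finset.prod_eq_one, mul_one]
  intro j hj
  rw [h3 j hj, pow_zero]

/-- The multilinear form of a multihomogeneous polynomial. -/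
theorem exists_form {D n : ℕ} (P : MvPolynomial (Fin D × Fin n) F)
    (hP : ∀ m ∈ P.support, ∀ i : Fin D, ∑ j : Fin n, m (i, j) = 1) :
    ∃ T : MultilinearMap F (fun _ : Fin D => Fin n → F) F,
      ∀ x : Fin D → Fin n → F, T x = eval (fun p => x p.1 p.2) P := by
  classical
  have h1 : ∀ m : P.support, ∀ i : Fin D, ∃ j₀ : Fin n, ∀ v : Fin n → F,
      ∏ j, v j ^ (m.1 (i, j)) = v j₀ := fun m i => exists_single _ (hP m.1 m.2 i)
  choose f hf using h1
  refine ⟨∑ m : P.support, (coeff m.1 P) •
    (MultilinearMap.mkPiAlgebra F (Fin D) F).compLinearMap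
      (fun i => (LinearMap.proj (f m i) : (Fin n → F) →ₗ[F] F)), fun x => ?_⟩
  rw [eval_eq]
  simp only [sum_apply, smul_apply,
    MultilinearMap.compLinearMap_apply, MultilinearMap.mkPiAlgebra_apply, LinearMap.proj_apply,
    smul_eq_mul]
  rw [← Finset.sum_coe_sort P.support
    (fun m => coeff m P * ∏ i ∈ m.support, (fun p : Fin D × Fin n => x p.1 p.2) i ^ m i)]
  refine Finset.sum_congr rfl fun m _ => ?_
  congr 1
  have h2 : ∏ p ∈ m.1.support, (fun p : Fin D × Fin n => x p.1 p.2) p ^ m.1 p
      = ∏ p : Fin D × Fin n, (fun p : Fin D × Fin n => x p.1 p.2) p ^ m.1 p := by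
    refine Finset.prod_subset (Finset.subset_univ _) ?_
    intro p _ hp
    rw [Finsupp.notMem_support_iff.mp hp, pow_zero]
  rw [h2, Fintype.prod_prod_type]
  refine Finset.prod_congr rfl fun i _ => ?_
  exact (hf m i (x i)).symm

/-- The polynomial of a multilinear map on a set `S` of blocks. -/
noncomputable def polyOf {D n : ℕ} (p : Fin D → Prop) [DecidablePred p]
    (a : MultilinearMap F (fun _ : {j : Fin D // p j} => Fin n → F) F) :
    MvPolynomial (Fin D × Fin n) F :=
  ∑ f : ({j : Fin D // p j} → Fin n), C (a (fun j => Pi.single (f j) 1)) *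
    ∏ j : {j : Fin D // p j}, X (j.1, f j)

theorem eval_polyOf {D n : ℕ} (p : Fin D → Prop) [DecidablePred p]
    (a : MultilinearMap F (fun _ : {j : Fin D // p j} => Fin n → F) F)
    (x : Fin D → Fin n → F) :
    eval (fun q => x q.1 q.2) (polyOf p a) = a (fun j => x j.1) := by
  classical
  have h1 : (fun j : {j : Fin D // p j} => x j.1)
      = fun j => ∑ k : Fin n, x j.1 k • (Pi.single k (1 : F) : Fin n → F) := by
    funext j
    exact pi_eq_sum_univ' (x j.1)
  rw [h1, MultilinearMap.map_sum]
  unfold polyOf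
  rw [map_sum]
  refine Finset.sum_congr rfl fun f _ => ?_
  rw [MultilinearMap.map_smul_univ, map_mul, eval_C, map_prod, mul_comm, smul_eq_mul]
  simp

theorem totalDegree_polyOf {D n : ℕ} (p : Fin D → Prop) [DecidablePred p]
    (a : MultilinearMap F (fun _ : {j : Fin D // p j} => Fin n → F) F) :
    (polyOf p a).totalDegree ≤ Fintype.card {j : Fin D // p j} := by
  classical
  unfold polyOf
  refine (totalDegree_finsetSum _ _).trans (Finset.sup_le fun f _ => ?_)
  refine (totalDegree_mul _ _).trans ?_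
  rw [totalDegree_C, zero_add]
  refine (totalDegree_finsetProd _ _).trans ?_
  calc ∑ j : {j : Fin D // p j}, (X (j.1, f j) : MvPolynomial (Fin D × Fin n) F).totalDegree
      ≤ ∑ j : {j : Fin D // p j}, 1 := Finset.sum_le_sum fun j _ => by rw [totalDegree_X]
    _ = _ := by simp

theorem degreeOf_polyOf {D n : ℕ} (p : Fin D → Prop) [DecidablePred p]
    (a : MultilinearMap F (fun _ : {j : Fin D // p j} => Fin n → F) F) (q : Fin D × Fin n) :
    degreeOf q (polyOf p a) ≤ if p q.1 then 1 else 0 := by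
  classical
  unfold polyOf
  refine (degreeOf_sum_le _ _ _).trans (Finset.sup_le fun f _ => ?_)
  refine (degreeOf_mul_le _ _ _).trans ?_
  rw [degreeOf_C, zero_add]
  refine (degreeOf_prod_le _ _ _).trans ?_
  have h1 : ∀ j : {j : Fin D // p j},
      degreeOf q (X (j.1, f j) : MvPolynomial (Fin D × Fin n) F) = if q = (j.1, f j) then 1 else 0 := by
    intro j
    rw [degreeOf_X]
  simp only [h1]
  split_ifs with hq
  · rw [← Finset.sum_filter_add_sum_filter_not Finset.univ (fun j : {j : Fin D // p j} => j.1 = q.1)]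
    have h2 : ∑ j ∈ Finset.univ.filter (fun j : {j : Fin D // p j} => ¬ j.1 = q.1),
        (if q = (j.1, f j) then 1 else 0) = 0 := by
      refine Finset.sum_eq_zero fun j hj => ?_
      rw [if_neg]
      intro h
      exact (Finset.mem_filter.mp hj).2 (by rw [h])
    rw [h2, add_zero]
    have h3 : (Finset.univ.filter (fun j : {j : Fin D // p j} => j.1 = q.1)) = {⟨q.1, hq⟩} := by
      ext j
      simp [Subtype.ext_iff]
    rw [h3, Finset.sum_singleton]
    split_ifs <;> simp
  · refine (Finset.sum_eq_zero fun j _ => ?_).le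
    rw [if_neg]
    intro h
    exact hq (by rw [h]; exact j.2)

/-- A decomposition of the form gives a decomposition of the polynomial. -/
theorem exists_decomp [Fintype F] {d n : ℕ} (P : MvPolynomial (Fin (d + 2) × Fin n) F)
    (hP : ∀ m ∈ P.support, ∀ i : Fin (d + 2), ∑ j : Fin n, m (i, j) = 1)
    (T : MForm F (fun _ : Fin (d + 2) => n))
    (hT : ∀ x : Fin (d + 2) → Fin n → F, T x = eval (fun p => x p.1 p.2) P)
    (r : ℕ) (hr : PRLe T r) :
    ∃ Q R : Fin r → MvPolynomial (Fin (d + 2) × Fin n) F,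
      (∀ i, (Q i).totalDegree < d + 2 ∧ (R i).totalDegree < d + 2) ∧ P = ∑ i, Q i * R i := by
  classical
  obtain ⟨S, a, b, hS, hab⟩ := hr
  refine ⟨fun k => polyOf (fun j => j ∈ S k) (a k), fun k => polyOf (fun j => j ∉ S k) (b k),
    fun k => ⟨?_, ?_⟩, ?_⟩
  · refine (totalDegree_polyOf _ _).trans_lt ?_
    rw [Fintype.card_coe]
    refine lt_of_le_of_ne ((Finset.card_le_univ _).trans (by simp)) fun h => (hS k).2 ?_
    rw [← Finset.card_eq_iff_eq_univ, h]; simp
  · refine (totalDegree_polyOf _ _).trans_lt ?_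
    have h1 : Fintype.card {j // j ∉ S k} = (d + 2) - (S k).card := by
      rw [Fintype.card_subtype_compl, Fintype.card_fin, Fintype.card_coe]
    have h2 := (hS k).1.card_pos
    rw [h1]
    omega
  · rw [← sub_eq_zero]
    refine eq_zero_of_eval_eq_zero (K := F) (σ := Fin (d + 2) × Fin n) _ ?_ ?_
    · intro v
      have h1 := hab (fun i j => v (i, j))
      rw [hT] at h1
      have h2 : (fun p : Fin (d + 2) × Fin n => v (p.1, p.2)) = v := rfl
      simp only at h1
      rw [map_sub, map_sum]
      rw [sub_eq_zero]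
      refine Eq.trans ?_ (h1.trans ?_)
      · rfl
      · refine Finset.sum_congr rfl fun k _ => ?_
        rw [map_mul]
        have h3 := eval_polyOf (fun j => j ∈ S k) (a k) (fun i j => v (i, j))
        have h4 := eval_polyOf (fun j => j ∉ S k) (b k) (fun i j => v (i, j))
        exact (congrArg₂ (· * ·) h3 h4).symm
    · have hq : 1 ≤ Fintype.card F - 1 := by
        have := Fintype.one_lt_card (α := F)
        omega
      have hP1 : ∀ q, degreeOf q P ≤ 1 := by
        intro q
        rw [degreeOf_le_iff]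
        intro m hm
        have h1 := hP m hm q.1
        calc m q = m (q.1, q.2) := rfl
          _ ≤ ∑ j, m (q.1, j) := Finset.single_le_sum (f := fun j => m (q.1, j))
              (fun _ _ => Nat.zero_le _) (Finset.mem_univ q.2)
          _ = 1 := h1
      have hQ1 : ∀ q, degreeOf q (∑ k, polyOf (fun j => j ∈ S k) (a k)
          * polyOf (fun j => j ∉ S k) (b k)) ≤ 1 := by
        intro q
        refine (degreeOf_sum_le _ _ _).trans (Finset.sup_le fun k _ => ?_)
        refine (degreeOf_mul_le _ _ _).trans ?_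
        refine (add_le_add (degreeOf_polyOf _ _ q) (degreeOf_polyOf _ _ q)).trans ?_
        by_cases h : q.1 ∈ S k <;> simp [h]
      rw [mem_restrictDegree]
      intro m hm q
      have h1 : degreeOf q (P - ∑ k, polyOf (fun j => j ∈ S k) (a k)
          * polyOf (fun j => j ∉ S k) (b k)) ≤ 1 :=
        (degreeOf_sub_le _ _ _).trans (max_le (hP1 q) (hQ1 q))
      rw [degreeOf_le_iff] at h1
      exact (h1 m hm).trans hq

/-- The character sum of a multilinear form is the number of points where the form vanishes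
identically in its first argument. -/
theorem charSum [Fintype F] {d : ℕ} {n : Fin (d + 2) → ℕ} (T : MForm F n) (ψ : AddChar F ℂ)
    (hψ : ψ ≠ 1) :
    ∑ x : (i : Fin (d + 2)) → Fin (n i) → F, ψ (T x) =
      (Nat.card {x : (i : Fin (d + 2)) → Fin (n i) → F //
        ∀ y : Fin (n 0) → F, T (Function.update x 0 y) = 0} : ℂ) := by
  classical
  -- the inner sum
  have hin : ∀ x : (i : Fin (d + 2)) → Fin (n i) → F,
      ∑ y : Fin (n 0) → F, ψ (T (Function.update x 0 y)) =
        if (∀ y : Fin (n 0) → F, T (Function.update x 0 y) = 0)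
          then (Fintype.card (Fin (n 0) → F) : ℂ) else 0 := by
    intro x
    split_ifs with h
    · rw [Finset.sum_congr rfl (fun y _ => by rw [h y, AddChar.map_zero_eq_one])]
      simp
    · push Not at h
      obtain ⟨y₀, hy₀⟩ := h
      let L : (Fin (n 0) → F) →ₗ[F] F := T.toLinearMap x 0
      have hL : ∀ y, L y = T (Function.update x 0 y) := fun y => rfl
      let χ : AddChar (Fin (n 0) → F) ℂ := ψ.compAddMonoidHom L.toAddMonoidHom
      have hχ : ∀ y, χ y = ψ (T (Function.update x 0 y)) := fun y => rfl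
      have hne : χ ≠ 1 := by
        obtain ⟨c, hc⟩ := AddChar.ne_one_iff.mp hψ
        rw [AddChar.ne_one_iff]
        refine ⟨(c / L y₀) • y₀, ?_⟩
        have : L ((c / L y₀) • y₀) = c := by
          rw [map_smul, smul_eq_mul, div_mul_cancel₀]
          rw [hL]; exact hy₀
        change ψ (L ((c / L y₀) • y₀)) ≠ 1
        rw [this]; exact hc
      have := AddChar.sum_eq_zero_of_ne_one hne
      exact this
  -- translate the first argument
  have htr : ∀ y : Fin (n 0) → F,
      ∑ x : (i : Fin (d + 2)) → Fin (n i) → F, ψ (T x) =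
        ∑ x : (i : Fin (d + 2)) → Fin (n i) → F, ψ (T x) * ψ (T (Function.update x 0 y)) := by
    intro y
    let w : (i : Fin (d + 2)) → Fin (n i) → F := Function.update 0 0 y
    rw [← Equiv.sum_comp (Equiv.addRight w)]
    refine Finset.sum_congr rfl fun x _ => ?_
    have h1 : (Equiv.addRight w) x = Function.update x 0 (x 0 + y) := by
      funext i
      simp only [Equiv.coe_addRight, Pi.add_apply, w]
      rcases eq_or_ne i 0 with rfl | hi
      · simp
      · simp [Function.update_of_ne hi]
    rw [h1, T.map_update_add, AddChar.map_add_eq_mul, Function.update_eq_self]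
  have hsum : (Fintype.card (Fin (n 0) → F) : ℂ) *
      ∑ x : (i : Fin (d + 2)) → Fin (n i) → F, ψ (T x) =
      (Fintype.card (Fin (n 0) → F) : ℂ) *
      (Nat.card {x : (i : Fin (d + 2)) → Fin (n i) → F //
        ∀ y : Fin (n 0) → F, T (Function.update x 0 y) = 0} : ℂ) := by
    calc (Fintype.card (Fin (n 0) → F) : ℂ) *
        ∑ x : (i : Fin (d + 2)) → Fin (n i) → F, ψ (T x)
        = ∑ y : Fin (n 0) → F, ∑ x : (i : Fin (d + 2)) → Fin (n i) → F, ψ (T x) := by
          rw [Finset.sum_const, nsmul_eq_mul]; rfl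
      _ = ∑ y : Fin (n 0) → F, ∑ x : (i : Fin (d + 2)) → Fin (n i) → F,
            ψ (T x) * ψ (T (Function.update x 0 y)) := Finset.sum_congr rfl fun y _ => htr y
      _ = ∑ x : (i : Fin (d + 2)) → Fin (n i) → F, ψ (T x) *
            ∑ y : Fin (n 0) → F, ψ (T (Function.update x 0 y)) := by
          rw [Finset.sum_comm]
          exact Finset.sum_congr rfl fun x _ => (Finset.mul_sum _ _ _).symm
      _ = ∑ x : (i : Fin (d + 2)) → Fin (n i) → F,
            if (∀ y : Fin (n 0) → F, T (Function.update x 0 y) = 0)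
              then (Fintype.card (Fin (n 0) → F) : ℂ) else 0 := by
          refine Finset.sum_congr rfl fun x _ => ?_
          rw [hin x]
          split_ifs with h
          · have h1 : T x = 0 := by
              have := h (x 0)
              rwa [Function.update_eq_self] at this
            rw [h1, AddChar.map_zero_eq_one, one_mul]
          · rw [mul_zero]
      _ = _ := by
          rw [← Finset.sum_filter, Finset.sum_const, nsmul_eq_mul, mul_comm,
            Nat.card_eq_fintype_card, Fintype.card_subtype]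
  have hc : (Fintype.card (Fin (n 0) → F) : ℂ) ≠ 0 := by
    exact_mod_cast Fintype.card_ne_zero
  exact mul_left_cancel₀ hc hsum

theorem arank_nonneg [Fintype F] {d : ℕ} {n : Fin (d + 2) → ℕ} (T : MForm F n) : 0 ≤ arank T := by
  classical
  unfold arank
  rw [neg_nonneg]
  refine Real.logb_nonpos (by exact_mod_cast Fintype.one_lt_card (α := F)) (by positivity) ?_
  refine div_le_one_of_le₀ ?_ (by positivity)
  exact_mod_cast Nat.card_le_card_of_injective (Subtype.val) Subtype.val_injective

theorem arank_eq [Fintype F] {d n : ℕ} (P : MvPolynomial (Fin (d + 2) × Fin n) F)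
    (T : MForm F (fun _ : Fin (d + 2) => n))
    (hT : ∀ x : Fin (d + 2) → Fin n → F, T x = eval (fun p => x p.1 p.2) P)
    (ψ : AddChar F ℂ) (hψ : ψ ≠ 1) :
    arank T = -Real.logb (Fintype.card F : ℝ)
          (‖∑ x : Fin (d + 2) × Fin n → F, ψ (MvPolynomial.eval x P)‖ /
            (Fintype.card F : ℝ) ^ ((d + 2) * n)) := by
  classical
  unfold arank
  have h1 : ∑ x : Fin (d + 2) × Fin n → F, ψ (MvPolynomial.eval x P) =
      ∑ x : Fin (d + 2) → Fin n → F, ψ (T x) := by
    rw [← Equiv.sum_comp (Equiv.curry (Fin (d + 2)) (Fin n) F)]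
    refine Finset.sum_congr rfl fun x _ => ?_
    rw [hT]
    rfl
  rw [h1, charSum T ψ hψ, Complex.norm_natCast]
  congr 3
  rw [Nat.card_eq_fintype_card, Fintype.card_fun, Fintype.card_fun, Fintype.card_fin,
    Fintype.card_fin, ← pow_mul, mul_comm]
  push_cast
  rfl

/-- Module (H). -/
theorem S11851_of_uniform (H : ∀ d : ℕ, Uniform d) :
  ∀ d : ℕ, 2 ≤ d → ∃ ε : ℝ, 0 < ε ∧
    ∀ (F : Type) [Field F] [Fintype F] (n : ℕ) (P : MvPolynomial (Fin d × Fin n) F),
      (∀ m ∈ P.support, ∀ i : Fin d, ∑ j : Fin n, m (i, j) = 1) →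
      ∀ ψ : AddChar F ℂ, ψ ≠ 1 →
      ∀ r : ℕ,
        (¬ ∃ k < r, ∃ Q R : Fin k → MvPolynomial (Fin d × Fin n) F,
            (∀ i, (Q i).totalDegree < d ∧ (R i).totalDegree < d) ∧
              P = ∑ i, Q i * R i) →
        ε * (r : ℝ) ≤ -Real.logb (Fintype.card F : ℝ)
          (‖∑ x : Fin d × Fin n → F, ψ (MvPolynomial.eval x P)‖ /
            (Fintype.card F : ℝ) ^ (d * n)) := by
  intro D hD
  obtain ⟨d, rfl⟩ := Nat.exists_eq_add_of_le' hD
  obtain ⟨C, hC, h⟩ := H d
  refine ⟨(C + 1)⁻¹, by positivity, ?_⟩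
  intro F _ _ n P hP ψ hψ r hr
  obtain ⟨T, hT⟩ := exists_form P hP
  obtain ⟨r₀, hr₀, hdec⟩ := h F (fun _ => n) T
  have h1 : r ≤ r₀ := by
    by_contra hlt
    push Not at hlt
    exact hr ⟨r₀, hlt, exists_decomp P hP T hT r₀ hdec⟩
  rw [← arank_eq P T hT ψ hψ]
  have h2 := arank_nonneg T
  have h3 : (r : ℝ) ≤ C * arank T := le_trans (by exact_mod_cast h1) hr₀
  rw [inv_mul_le_iff₀ (by positivity)]
  nlinarith

end Pool.Agent.T6.H35.PAH
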